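import Pool.Agent.Helper35.CK.Levels
import Pool.Agent.Helper5.EK.Entropy
import Pool.Agent.Helper26.EK.KfCont
set_option autoImplicit false
open Complex MeasureTheory Metric Set
open scoped Real ComplexConjugate

/-! Project CK: the entropy inequality for a Gibbs density in the angle and the depth. -/

namespace Pool.Agent.Helper35.CK

open Pool.Agent.Helper52.EK

/-- the angular marginal of the Gibbs density is a density -/
theorem dens_rr {F : ℝ → ℝ → ℝ} {ω : ℝ → ℝ} {l₁ l₂ : ℝ} (h : Band F ω l₁ l₂) :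
    Dens (rr F ω l₁ l₂) :=
  ⟨rr_cont h, rr_pos h, rr_per h, rr_one h⟩

theorem dens_rL {F : ℝ → ℝ → ℝ} (hc : Continuous (fun p : ℝ × ℝ => F p.1 p.2))
    (hper : ∀ α L, F (α + 2 * π) L = F α L) (L : ℝ) : Dens (rL F L) := by
  have hZ := ZZ_pos hc L
  have a1 := sec_cont hc L
  refine ⟨?_, ?_, ?_, ?_⟩
  · unfold rL
    fun_prop
  · intro α
    exact div_pos (Real.exp_pos _) hZ
  · intro α
    unfold rL
    rw [hper]
  · unfold rL
    rw [intervalIntegral.integral_div]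
    have : ∫ α in (0:ℝ)..(2 * π), Real.exp (F α L) = 2 * π * ZZ F L := by
      unfold ZZ
      rw [← mul_assoc, mul_inv_cancel₀ (by positivity), one_mul]
    rw [this]
    field_simp

/-- the entropy inequality on one level -/
theorem level_bound {C : ℝ} (hC : ∀ (ρ : ℝ → ℝ) (w : ℂ → ℂ) (a : ℝ), Dens ρ →
    ContinuousOn w {z | 0 < ‖z‖ ∧ ‖z‖ < 1} → Real.exp (-1) < a → a < 1 →
    -Real.log (1 - a ^ 2) - C ≤ (2 * π)⁻¹ * (∫ α in (0:ℝ)..(2 * π), ρ α * Real.log (ρ α)) +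
      (2 * π)⁻¹ * ∫ α in (0:ℝ)..(2 * π), ρ α * Kf w (Complex.exp (α * I)) (-1) (Real.log a))
    {F : ℝ → ℝ → ℝ} (hc : Continuous (fun p : ℝ × ℝ => F p.1 p.2))
    (hper : ∀ α L, F (α + 2 * π) L = F α L) {K : ℝ → ℝ → ℝ}
    (hK : Continuous (fun p : ℝ × ℝ => K p.1 p.2)) {w : ℂ → ℂ}
    (hw : ContinuousOn w {z | 0 < ‖z‖ ∧ ‖z‖ < 1}) {a L : ℝ} (ha0 : Real.exp (-1) < a) (ha1 : a < 1)
    (hb : ∀ α : ℝ, Real.log (1 - a ^ 2) + Kf w (Complex.exp (α * I)) (-1) (Real.log a) ≤ K α L) :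
    Real.log (ZZ F L) ≤
      C + (2 * π)⁻¹ * ∫ α in (0:ℝ)..(2 * π), rL F L α * (F α L + K α L) := by
  have hZ := ZZ_pos hc L
  have hd := dens_rL hc hper L
  have h1 := hC (rL F L) w a hd hw ha0 ha1
  have a1 := sec_cont hc L
  have a2 := sec_cont hK L
  have cr := hd.cont
  have hla : -1 < Real.log a := by
    have := Real.log_lt_log (Real.exp_pos _) ha0
    rwa [Real.log_exp] at this
  have hla2 : Real.log a < 0 := Real.log_neg ((Real.exp_pos _).trans ha0) ha1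
  have cKf := Pool.Agent.Helper26.EK.Kf_cont hw hla hla2
  have e1 : ∫ α in (0:ℝ)..(2 * π), rL F L α * Real.log (rL F L α) =
      (∫ α in (0:ℝ)..(2 * π), rL F L α * F α L) - 2 * π * Real.log (ZZ F L) := by
    have e2 : ∀ α, rL F L α * Real.log (rL F L α) =
        rL F L α * F α L - rL F L α * Real.log (ZZ F L) := by
      intro α
      have : Real.log (rL F L α) = F α L - Real.log (ZZ F L) := by
        unfold rL
        rw [Real.log_div (Real.exp_pos _).ne' hZ.ne', Real.log_exp]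
      rw [this]
      ring
    simp only [e2]
    have j1 : IntervalIntegrable (fun α => rL F L α * F α L) volume 0 (2 * π) :=
      (cr.mul a1).intervalIntegrable _ _
    have j2 : IntervalIntegrable (fun α => rL F L α * Real.log (ZZ F L)) volume 0 (2 * π) :=
      (cr.mul continuous_const).intervalIntegrable _ _
    rw [intervalIntegral.integral_sub j1 j2, intervalIntegral.integral_mul_const, hd.one]
  have j1 : IntervalIntegrable (fun α => rL F L α * Real.log (1 - a ^ 2)) volume 0 (2 * π) :=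
    (cr.mul continuous_const).intervalIntegrable _ _
  have j2 : IntervalIntegrable (fun α => rL F L α * Kf w (Complex.exp (α * I)) (-1)
      (Real.log a)) volume 0 (2 * π) := (cr.mul cKf).intervalIntegrable _ _
  have j3 : IntervalIntegrable (fun α => rL F L α * K α L) volume 0 (2 * π) :=
    (cr.mul a2).intervalIntegrable _ _
  have j4 : IntervalIntegrable (fun α => rL F L α * F α L) volume 0 (2 * π) :=
    (cr.mul a1).intervalIntegrable _ _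
  have h2 : ∫ α in (0:ℝ)..(2 * π), (rL F L α * Real.log (1 - a ^ 2) +
      rL F L α * Kf w (Complex.exp (α * I)) (-1) (Real.log a)) ≤
      ∫ α in (0:ℝ)..(2 * π), rL F L α * K α L := by
    apply intervalIntegral.integral_mono_on (by positivity) (j1.add j2) j3
    intro α _
    have := mul_le_mul_of_nonneg_left (hb α) (hd.pos α).le
    rw [mul_add] at this
    exact this
  rw [intervalIntegral.integral_add j1 j2, intervalIntegral.integral_mul_const, hd.one] at h2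
  rw [e1] at h1
  have e5 : ∫ α in (0:ℝ)..(2 * π), rL F L α * (F α L + K α L) =
      (∫ α in (0:ℝ)..(2 * π), rL F L α * F α L) + ∫ α in (0:ℝ)..(2 * π), rL F L α * K α L := by
    rw [← intervalIntegral.integral_add j4 j3]
    apply intervalIntegral.integral_congr
    intro α _
    simp only
    ring
  rw [e5]
  have hp : (0:ℝ) < (2 * π)⁻¹ := by positivity
  have h3 := mul_le_mul_of_nonneg_left h2 hp.le
  have e6 : (2 * π)⁻¹ * (2 * π * Real.log (1 - a ^ 2) +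
      ∫ α in (0:ℝ)..(2 * π), rL F L α * Kf w (Complex.exp (α * I)) (-1) (Real.log a)) =
      Real.log (1 - a ^ 2) + (2 * π)⁻¹ *
      ∫ α in (0:ℝ)..(2 * π), rL F L α * Kf w (Complex.exp (α * I)) (-1) (Real.log a) := by
    rw [mul_add, ← mul_assoc, inv_mul_cancel₀ (by positivity), one_mul]
  have e7 : (2 * π)⁻¹ * ((∫ α in (0:ℝ)..(2 * π), rL F L α * F α L) -
      2 * π * Real.log (ZZ F L)) =
      (2 * π)⁻¹ * (∫ α in (0:ℝ)..(2 * π), rL F L α * F α L) - Real.log (ZZ F L) := by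
    rw [mul_sub, ← mul_assoc, inv_mul_cancel₀ (by positivity), one_mul]
  rw [e6] at h3
  rw [e7] at h1
  rw [mul_add]
  linarith

/-- **The entropy inequality for the Gibbs density of `exp F ω` in the angle and the depth.**
`K α L` is any continuous upper bound of `log (1 - a²) + Kf w (exp (i α)) (-1) (log a)`, where
`a = a L` may depend on the level (one fixed `a` above the band, or `a L` at the target), `P` is the
price of the choice of the level. -/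
theorem ent : ∃ C : ℝ, ∀ (F : ℝ → ℝ → ℝ) (ω : ℝ → ℝ) (l₁ l₂ : ℝ), Band F ω l₁ l₂ →
    ∀ P : ℝ → ℝ, Continuous P → ∫ L in l₁..l₂, Real.exp (-P L) ≤ 1 →
    ∀ w : ℂ → ℂ, ContinuousOn w {z | 0 < ‖z‖ ∧ ‖z‖ < 1} →
    ∀ (a : ℝ → ℝ) (K : ℝ → ℝ → ℝ), Continuous (fun p : ℝ × ℝ => K p.1 p.2) →
    (∀ L ∈ Icc l₁ l₂, 0 < ω L → Real.exp (-1) < a L ∧ a L < 1 ∧ ∀ α : ℝ,
      Real.log (1 - a L ^ 2) + Kf w (Complex.exp (α * I)) (-1) (Real.log (a L)) ≤ K α L) →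
    Real.log (JJ F ω l₁ l₂) ≤ C +
      (2 * π)⁻¹ * ∫ α in (0:ℝ)..(2 * π), ∫ L in l₁..l₂, eK F ω K P l₁ l₂ α L := by
  obtain ⟨C, hC⟩ := Pool.Agent.Helper5.EK.entropy
  refine ⟨C, ?_⟩
  intro F ω l₁ l₂ h P hP hP1 w hw a K hK hb
  refine gibbs_levels h hK hP hP1 ?_
  intro L hL h0
  obtain ⟨h1, h2, h3⟩ := hb L hL h0
  exact level_bound hC h.cont h.per hK hw h1 h2 h3

/-- The same with one `a` above the band and the exact loss. -/
theorem ent_band : ∃ C : ℝ, ∀ (F : ℝ → ℝ → ℝ) (ω : ℝ → ℝ) (l₁ l₂ n : ℝ), Band F ω l₁ l₂ →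
    ∀ w : ℂ → ℂ, ContinuousOn w {z | 0 < ‖z‖ ∧ ‖z‖ < 1} →
    ∀ a : ℝ, Real.exp (-1) < a → a < 1 →
    Real.log (JJ F ω l₁ l₂) ≤ Real.log (1 - a ^ 2) + C +
      (2 * π)⁻¹ * (∫ α in (0:ℝ)..(2 * π),
        rr F ω l₁ l₂ α * Kf w (Complex.exp (α * I)) (-1) (Real.log a)) +
      (2 * π)⁻¹ * ∫ α in (0:ℝ)..(2 * π), ∫ L in l₁..l₂, en F ω n l₁ l₂ α L := by
  obtain ⟨C, hC⟩ := Pool.Agent.Helper5.EK.entropy
  refine ⟨C + Real.log 2, ?_⟩
  intro F ω l₁ l₂ n h w hw a ha0 ha1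
  have h1 := gibbs_band h n
  have h2 := hC _ w a (dens_rr h) hw ha0 ha1
  linarith

/-- `Band` with continuity on the closed band only -/
structure BandOn (F : ℝ → ℝ → ℝ) (ω : ℝ → ℝ) (l₁ l₂ : ℝ) : Prop where
  cont : ContinuousOn (fun p : ℝ × ℝ => F p.1 p.2) (univ ×ˢ Icc l₁ l₂)
  per : ∀ α, ∀ L ∈ Icc l₁ l₂, F (α + 2 * π) L = F α L
  contw : ContinuousOn ω (Icc l₁ l₂)
  nonneg : ∀ L ∈ Icc l₁ l₂, 0 ≤ ω L
  lt : l₁ < l₂
  pos : ∃ L ∈ Icc l₁ l₂, 0 < ω L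

/-- projection to the band -/
noncomputable def cl (l₁ l₂ L : ℝ) : ℝ := max l₁ (min L l₂)

theorem cl_mem {l₁ l₂ : ℝ} (h : l₁ ≤ l₂) (L : ℝ) : cl l₁ l₂ L ∈ Icc l₁ l₂ :=
  ⟨le_max_left _ _, max_le h (min_le_right _ _)⟩

theorem cl_eq {l₁ l₂ L : ℝ} (hL : L ∈ Icc l₁ l₂) : cl l₁ l₂ L = L := by
  unfold cl
  rw [min_eq_left hL.2, max_eq_right hL.1]

theorem cl_cont (l₁ l₂ : ℝ) : Continuous (cl l₁ l₂) := by
  unfold cl
  fun_prop

theorem BandOn.band {F : ℝ → ℝ → ℝ} {ω : ℝ → ℝ} {l₁ l₂ : ℝ} (h : BandOn F ω l₁ l₂) :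
    Band (fun α L => F α (cl l₁ l₂ L)) (fun L => ω (cl l₁ l₂ L)) l₁ l₂ := by
  have hm := fun L => cl_mem h.lt.le L
  refine ⟨?_, fun α L => h.per α _ (hm L), ?_, fun L => h.nonneg _ (hm L), h.lt, ?_⟩
  · exact h.cont.comp_continuous
      (g := fun p : ℝ × ℝ => F p.1 p.2) (f := fun p : ℝ × ℝ => (p.1, cl l₁ l₂ p.2))
      (continuous_fst.prodMk ((cl_cont l₁ l₂).comp continuous_snd)) (fun p => ⟨mem_univ _, hm _⟩)
  · exact h.contw.comp_continuous (cl_cont l₁ l₂) hm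
  · obtain ⟨L, hL, hp⟩ := h.pos
    exact ⟨L, hL, by rw [cl_eq hL]; exact hp⟩

theorem JJ_congr {F F' : ℝ → ℝ → ℝ} {ω ω' : ℝ → ℝ} {l₁ l₂ : ℝ} (hl : l₁ ≤ l₂)
    (hF : ∀ α, ∀ L ∈ Icc l₁ l₂, F α L = F' α L) (hω : ∀ L ∈ Icc l₁ l₂, ω L = ω' L) :
    JJ F ω l₁ l₂ = JJ F' ω' l₁ l₂ := by
  unfold JJ
  congr 1
  apply intervalIntegral.integral_congr
  intro α _
  apply intervalIntegral.integral_congr
  intro L hL
  rw [uIcc_of_le hl] at hL
  simp only [hF α L hL, hω L hL]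

theorem eK_congr {F F' : ℝ → ℝ → ℝ} {ω ω' : ℝ → ℝ} {K K' : ℝ → ℝ → ℝ} {P P' : ℝ → ℝ}
    {l₁ l₂ : ℝ} (hl : l₁ ≤ l₂)
    (hF : ∀ α, ∀ L ∈ Icc l₁ l₂, F α L = F' α L) (hω : ∀ L ∈ Icc l₁ l₂, ω L = ω' L)
    (hK : ∀ α, ∀ L ∈ Icc l₁ l₂, K α L = K' α L) (hP : ∀ L ∈ Icc l₁ l₂, P L = P' L) (α : ℝ) :
    ∫ L in l₁..l₂, eK F ω K P l₁ l₂ α L = ∫ L in l₁..l₂, eK F' ω' K' P' l₁ l₂ α L := by
  apply intervalIntegral.integral_congr
  intro L hL
  rw [uIcc_of_le hl] at hL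
  simp only [eK, cc, hF α L hL, hω L hL, hK α L hL, hP L hL, JJ_congr hl hF hω]

/-- `ent` with continuity on the closed band only -/
theorem ent_on : ∃ C : ℝ, ∀ (F : ℝ → ℝ → ℝ) (ω : ℝ → ℝ) (l₁ l₂ : ℝ), BandOn F ω l₁ l₂ →
    ∀ P : ℝ → ℝ, ContinuousOn P (Icc l₁ l₂) → ∫ L in l₁..l₂, Real.exp (-P L) ≤ 1 →
    ∀ w : ℂ → ℂ, ContinuousOn w {z | 0 < ‖z‖ ∧ ‖z‖ < 1} →
    ∀ (a : ℝ → ℝ) (K : ℝ → ℝ → ℝ),
      ContinuousOn (fun p : ℝ × ℝ => K p.1 p.2) (univ ×ˢ Icc l₁ l₂) →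
    (∀ L ∈ Icc l₁ l₂, 0 < ω L → Real.exp (-1) < a L ∧ a L < 1 ∧ ∀ α : ℝ,
      Real.log (1 - a L ^ 2) + Kf w (Complex.exp (α * I)) (-1) (Real.log (a L)) ≤ K α L) →
    Real.log (JJ F ω l₁ l₂) ≤ C +
      (2 * π)⁻¹ * ∫ α in (0:ℝ)..(2 * π), ∫ L in l₁..l₂, eK F ω K P l₁ l₂ α L := by
  obtain ⟨C, hC⟩ := ent
  refine ⟨C, ?_⟩
  intro F ω l₁ l₂ h P hP hP1 w hw a K hK hb
  have hl := h.lt.le
  have hm := fun L => cl_mem hl L
  have hK' : Continuous (fun p : ℝ × ℝ => K p.1 (cl l₁ l₂ p.2)) :=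
    hK.comp_continuous
      (g := fun p : ℝ × ℝ => K p.1 p.2) (f := fun p : ℝ × ℝ => (p.1, cl l₁ l₂ p.2))
      (continuous_fst.prodMk ((cl_cont l₁ l₂).comp continuous_snd)) (fun p => ⟨mem_univ _, hm _⟩)
  have hP' : Continuous fun L => P (cl l₁ l₂ L) := hP.comp_continuous (cl_cont l₁ l₂) hm
  have h1 := hC _ _ l₁ l₂ h.band (fun L => P (cl l₁ l₂ L)) hP' (by
      refine le_trans (le_of_eq ?_) hP1
      apply intervalIntegral.integral_congr
      intro L hL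
      rw [uIcc_of_le hl] at hL
      simp only [cl_eq hL]) w hw a (fun α L => K α (cl l₁ l₂ L)) hK' (by
      intro L hL h0
      simp only [cl_eq hL] at h0 ⊢
      exact hb L hL h0)
  rw [JJ_congr hl (F' := F) (ω' := ω) (fun α L hL => by simp only [cl_eq hL])
    (fun L hL => by simp only [cl_eq hL])] at h1
  refine h1.trans (le_of_eq ?_)
  congr 2
  apply intervalIntegral.integral_congr
  intro α _
  exact eK_congr hl (fun α L hL => by simp only [cl_eq hL])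
    (fun L hL => by simp only [cl_eq hL]) (fun α L hL => by simp only [cl_eq hL])
    (fun L hL => by simp only [cl_eq hL]) α

end Pool.Agent.Helper35.CK
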