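import Mathlib
set_option autoImplicit false
open MeasureTheory Set
open scoped Real

/-! Project CK: Gibbs' principle for a density in the angle and in the depth. -/

namespace Pool.Agent.Helper35.CK

/-- data: a continuous function `F` of the angle `α` and of the depth `L`, and a weight `ω` of the
depth with support in `[l₁, l₂]` -/
structure Band (F : ℝ → ℝ → ℝ) (ω : ℝ → ℝ) (l₁ l₂ : ℝ) : Prop where
  cont : Continuous (fun p : ℝ × ℝ => F p.1 p.2)
  per : ∀ α L, F (α + 2 * π) L = F α L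
  contw : Continuous ω
  nonneg : ∀ L, 0 ≤ ω L
  lt : l₁ < l₂
  pos : ∃ L ∈ Icc l₁ l₂, 0 < ω L

/-- the functional -/
noncomputable def JJ (F : ℝ → ℝ → ℝ) (ω : ℝ → ℝ) (l₁ l₂ : ℝ) : ℝ :=
  (2 * π)⁻¹ * ∫ α in (0:ℝ)..(2 * π), ∫ L in l₁..l₂, Real.exp (F α L) * ω L

/-- the Gibbs density -/
noncomputable def cc (F : ℝ → ℝ → ℝ) (ω : ℝ → ℝ) (l₁ l₂ : ℝ) (α L : ℝ) : ℝ :=
  Real.exp (F α L) * ω L / JJ F ω l₁ l₂

/-- its marginal in the angle -/
noncomputable def rr (F : ℝ → ℝ → ℝ) (ω : ℝ → ℝ) (l₁ l₂ : ℝ) (α : ℝ) : ℝ :=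
  ∫ L in l₁..l₂, cc F ω l₁ l₂ α L

/-- parametric integrals of continuous functions are continuous -/
theorem cont_int {f : ℝ → ℝ → ℝ} (hf : Continuous (fun p : ℝ × ℝ => f p.1 p.2)) (l₁ l₂ : ℝ) :
    Continuous (fun α => ∫ L in l₁..l₂, f α L) :=
  intervalIntegral.continuous_parametric_intervalIntegral_of_continuous' hf l₁ l₂

theorem integral_g {l₁ l₂ : ℝ} (h : l₁ ≤ l₂) (n : ℝ) :
    ∫ L in l₁..l₂, Real.exp (-|L - n|) / 2 ≤ 1 := by
  have key : ∀ a b : ℝ, a ≤ b → (∀ x ∈ Icc a b, n ≤ x) →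
      ∫ L in a..b, Real.exp (-|L - n|) / 2 ≤ Real.exp (-(a - n)) / 2 := by
    intro a b hab hx
    have e1 : ∫ L in a..b, Real.exp (-|L - n|) / 2 = ∫ L in a..b, Real.exp (-(L - n)) / 2 := by
      apply intervalIntegral.integral_congr
      intro x hx1
      rw [uIcc_of_le hab] at hx1
      have : |x - n| = x - n := abs_of_nonneg (by linarith [hx x hx1])
      simp only [this]
    have hd : ∀ x ∈ uIcc a b, HasDerivAt (fun L : ℝ => -(Real.exp (-(L - n)) / 2))
        (Real.exp (-(x - n)) / 2) x := by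
      intro x _
      have h1 : HasDerivAt (fun L : ℝ => -(L - n)) (-1) x :=
        ((hasDerivAt_id' x).sub_const n).neg
      have h2 := (h1.exp.div_const 2).neg
      have e3 : Real.exp (-(x - n)) / 2 = -(Real.exp (-(x - n)) * -1 / 2) := by ring
      rw [e3]
      exact h2
    rw [e1, intervalIntegral.integral_eq_sub_of_hasDerivAt hd (by
      apply Continuous.intervalIntegrable
      fun_prop)]
    have := Real.exp_pos (-(b - n))
    linarith
  have key2 : ∀ a b : ℝ, a ≤ b → (∀ x ∈ Icc a b, x ≤ n) →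
      ∫ L in a..b, Real.exp (-|L - n|) / 2 ≤ Real.exp (b - n) / 2 := by
    intro a b hab hx
    have e1 : ∫ L in a..b, Real.exp (-|L - n|) / 2 = ∫ L in a..b, Real.exp (L - n) / 2 := by
      apply intervalIntegral.integral_congr
      intro x hx1
      rw [uIcc_of_le hab] at hx1
      have : |x - n| = -(x - n) := abs_of_nonpos (by linarith [hx x hx1])
      simp only [this, neg_neg]
    have hd : ∀ x ∈ uIcc a b, HasDerivAt (fun L : ℝ => Real.exp (L - n) / 2)
        (Real.exp (x - n) / 2) x := by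
      intro x _
      have h1 : HasDerivAt (fun L : ℝ => L - n) 1 x := (hasDerivAt_id' x).sub_const n
      have h2 := h1.exp.div_const 2
      have e3 : Real.exp (x - n) / 2 = Real.exp (x - n) * 1 / 2 := by ring
      rw [e3]
      exact h2
    rw [e1, intervalIntegral.integral_eq_sub_of_hasDerivAt hd (by
      apply Continuous.intervalIntegrable
      fun_prop)]
    have := Real.exp_pos (a - n)
    linarith
  have hI : ∀ a b : ℝ, IntervalIntegrable (fun L => Real.exp (-|L - n|) / 2) volume a b := by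
    intro a b
    apply Continuous.intervalIntegrable
    fun_prop
  rcases le_total n l₁ with h1 | h1
  · refine (key l₁ l₂ h fun x hx => h1.trans hx.1).trans ?_
    have : Real.exp (-(l₁ - n)) ≤ 1 := Real.exp_le_one_iff.mpr (by linarith)
    linarith
  rcases le_total l₂ n with h2 | h2
  · refine (key2 l₁ l₂ h fun x hx => hx.2.trans h2).trans ?_
    have : Real.exp (l₂ - n) ≤ 1 := Real.exp_le_one_iff.mpr (by linarith)
    linarith
  rw [← intervalIntegral.integral_add_adjacent_intervals (hI l₁ n) (hI n l₂)]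
  have a1 := key2 l₁ n h1 fun x hx => hx.2
  have a2 := key n l₂ h2 fun x hx => hx.1
  simp only [sub_self, neg_zero, Real.exp_zero] at a1 a2
  linarith

theorem exp_mul_cont {F : ℝ → ℝ → ℝ} {ω : ℝ → ℝ} {l₁ l₂ : ℝ} (h : Band F ω l₁ l₂) :
    Continuous (fun p : ℝ × ℝ => Real.exp (F p.1 p.2) * ω p.2) :=
  (Real.continuous_exp.comp h.cont).mul (h.contw.comp continuous_snd)

theorem inner_pos {F : ℝ → ℝ → ℝ} {ω : ℝ → ℝ} {l₁ l₂ : ℝ} (h : Band F ω l₁ l₂) (α : ℝ) :
    0 < ∫ L in l₁..l₂, Real.exp (F α L) * ω L := by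
  obtain ⟨L₀, hL₀, hp⟩ := h.pos
  have hc : Continuous (fun L => Real.exp (F α L) * ω L) :=
    (exp_mul_cont h).comp (by fun_prop : Continuous fun L : ℝ => (α, L))
  exact intervalIntegral.integral_pos h.lt hc.continuousOn
    (fun x _ => mul_nonneg (Real.exp_pos _).le (h.nonneg x))
    ⟨L₀, hL₀, mul_pos (Real.exp_pos _) hp⟩

theorem JJ_pos {F : ℝ → ℝ → ℝ} {ω : ℝ → ℝ} {l₁ l₂ : ℝ} (h : Band F ω l₁ l₂) :
    0 < JJ F ω l₁ l₂ := by
  unfold JJ
  apply mul_pos (by positivity)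
  exact intervalIntegral.intervalIntegral_pos_of_pos
    ((cont_int (exp_mul_cont h) l₁ l₂).intervalIntegrable _ _) (fun α => inner_pos h α)
    (by positivity)

theorem cc_cont {F : ℝ → ℝ → ℝ} {ω : ℝ → ℝ} {l₁ l₂ : ℝ} (h : Band F ω l₁ l₂) :
    Continuous (fun p : ℝ × ℝ => cc F ω l₁ l₂ p.1 p.2) :=
  (exp_mul_cont h).div_const _

theorem cc_nonneg {F : ℝ → ℝ → ℝ} {ω : ℝ → ℝ} {l₁ l₂ : ℝ} (h : Band F ω l₁ l₂) (α L : ℝ) :
    0 ≤ cc F ω l₁ l₂ α L :=
  div_nonneg (mul_nonneg (Real.exp_pos _).le (h.nonneg L)) (JJ_pos h).le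

theorem rr_cont {F : ℝ → ℝ → ℝ} {ω : ℝ → ℝ} {l₁ l₂ : ℝ} (h : Band F ω l₁ l₂) :
    Continuous (rr F ω l₁ l₂) := cont_int (cc_cont h) l₁ l₂

theorem rr_eq (F : ℝ → ℝ → ℝ) (ω : ℝ → ℝ) (l₁ l₂ α : ℝ) :
    rr F ω l₁ l₂ α = (∫ L in l₁..l₂, Real.exp (F α L) * ω L) / JJ F ω l₁ l₂ := by
  unfold rr cc
  rw [intervalIntegral.integral_div]

theorem rr_pos {F : ℝ → ℝ → ℝ} {ω : ℝ → ℝ} {l₁ l₂ : ℝ} (h : Band F ω l₁ l₂) (α : ℝ) :
    0 < rr F ω l₁ l₂ α := by
  rw [rr_eq]
  exact div_pos (inner_pos h α) (JJ_pos h)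

theorem rr_per {F : ℝ → ℝ → ℝ} {ω : ℝ → ℝ} {l₁ l₂ : ℝ} (h : Band F ω l₁ l₂) :
    Function.Periodic (rr F ω l₁ l₂) (2 * π) := by
  intro α
  simp only [rr_eq, h.per]

theorem rr_one {F : ℝ → ℝ → ℝ} {ω : ℝ → ℝ} {l₁ l₂ : ℝ} (h : Band F ω l₁ l₂) :
    ∫ α in (0:ℝ)..(2 * π), rr F ω l₁ l₂ α = 2 * π := by
  have hJ := JJ_pos h
  simp only [rr_eq]
  rw [intervalIntegral.integral_div]
  have : ∫ α in (0:ℝ)..(2 * π), ∫ L in l₁..l₂, Real.exp (F α L) * ω L =
      2 * π * JJ F ω l₁ l₂ := by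
    unfold JJ
    rw [← mul_assoc, mul_inv_cancel₀ (by positivity), one_mul]
  rw [this]
  field_simp

/-- the integrand of the energy -/
noncomputable def en (F : ℝ → ℝ → ℝ) (ω : ℝ → ℝ) (n : ℝ) (l₁ l₂ : ℝ) (α L : ℝ) : ℝ :=
  cc F ω l₁ l₂ α L * (F α L + Real.log (ω L) + |L - n|)

theorem en_cont {F : ℝ → ℝ → ℝ} {ω : ℝ → ℝ} {l₁ l₂ : ℝ} (h : Band F ω l₁ l₂) (n : ℝ) :
    Continuous (fun p : ℝ × ℝ => en F ω n l₁ l₂ p.1 p.2) := by
  have e : (fun p : ℝ × ℝ => en F ω n l₁ l₂ p.1 p.2) = fun p : ℝ × ℝ =>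
      cc F ω l₁ l₂ p.1 p.2 * (F p.1 p.2 + |p.2 - n|) +
      Real.exp (F p.1 p.2) * (ω p.2 * Real.log (ω p.2)) / JJ F ω l₁ l₂ := by
    funext p
    unfold en cc
    ring
  rw [e]
  have h1 := cc_cont h
  have h2 := h.cont
  have h3 : Continuous fun p : ℝ × ℝ => ω p.2 * Real.log (ω p.2) :=
    Real.continuous_mul_log.comp (h.contw.comp continuous_snd)
  fun_prop

/-- the inequality for one angle -/
theorem gibbs_alpha {F : ℝ → ℝ → ℝ} {ω : ℝ → ℝ} {l₁ l₂ : ℝ} (h : Band F ω l₁ l₂) (n α : ℝ) :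
    rr F ω l₁ l₂ α * (Real.log (JJ F ω l₁ l₂) - Real.log 2) +
      rr F ω l₁ l₂ α * Real.log (rr F ω l₁ l₂ α) ≤ ∫ L in l₁..l₂, en F ω n l₁ l₂ α L := by
  have hJ := JJ_pos h
  have hr := rr_pos h α
  set J := JJ F ω l₁ l₂ with hJd
  set r := rr F ω l₁ l₂ α with hrd
  have cC : Continuous (fun L => cc F ω l₁ l₂ α L) :=
    (cc_cont h).comp (by fun_prop : Continuous fun L : ℝ => (α, L))
  have cE : Continuous (fun L => en F ω n l₁ l₂ α L) :=
    (en_cont h n).comp (by fun_prop : Continuous fun L : ℝ => (α, L))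
  have cG : Continuous (fun L : ℝ => Real.exp (-|L - n|) / 2) := by fun_prop
  have pw : ∀ L, cc F ω l₁ l₂ α L - r * (Real.exp (-|L - n|) / 2) ≤
      en F ω n l₁ l₂ α L - cc F ω l₁ l₂ α L * (Real.log J - Real.log 2 + Real.log r) := by
    intro L
    have hg : 0 < Real.exp (-|L - n|) / 2 := by positivity
    rcases eq_or_lt_of_le (h.nonneg L) with h0 | h0
    · have : cc F ω l₁ l₂ α L = 0 := by unfold cc; rw [← h0]; simp
      unfold en
      rw [this]
      simp only [zero_mul, sub_zero, zero_sub]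
      have := mul_pos hr hg
      linarith
    · have hc : 0 < cc F ω l₁ l₂ α L := by
        unfold cc
        exact div_pos (mul_pos (Real.exp_pos _) h0) hJ
      have hlog : Real.log (cc F ω l₁ l₂ α L) = F α L + Real.log (ω L) - Real.log J := by
        unfold cc
        rw [Real.log_div (mul_pos (Real.exp_pos _) h0).ne' hJ.ne',
          Real.log_mul (Real.exp_pos _).ne' h0.ne', Real.log_exp]
      have hlg : Real.log (Real.exp (-|L - n|) / 2) = -|L - n| - Real.log 2 := by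
        rw [Real.log_div (Real.exp_pos _).ne' (by norm_num), Real.log_exp]
      set c := cc F ω l₁ l₂ α L with hcd
      set g := Real.exp (-|L - n|) / 2 with hgd
      have h1 : 1 - (c / (r * g))⁻¹ ≤ Real.log (c / (r * g)) :=
        Real.one_sub_inv_le_log_of_pos (by positivity)
      rw [Real.log_div hc.ne' (by positivity), Real.log_mul hr.ne' hg.ne', hlog, hlg] at h1
      have h2 := mul_le_mul_of_nonneg_left h1 hc.le
      have h3 : c * (1 - (c / (r * g))⁻¹) = c - r * g := by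
        field_simp
      rw [h3] at h2
      unfold en
      rw [← hcd]
      linarith
  have i1 : IntervalIntegrable (fun L => r * (Real.exp (-|L - n|) / 2)) volume l₁ l₂ :=
    (continuous_const.mul cG).intervalIntegrable l₁ l₂
  have i2 : IntervalIntegrable (fun L => cc F ω l₁ l₂ α L *
      (Real.log J - Real.log 2 + Real.log r)) volume l₁ l₂ :=
    (cC.mul continuous_const).intervalIntegrable l₁ l₂
  have hint : ∫ L in l₁..l₂, (cc F ω l₁ l₂ α L - r * (Real.exp (-|L - n|) / 2)) ≤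
      ∫ L in l₁..l₂, (en F ω n l₁ l₂ α L - cc F ω l₁ l₂ α L *
        (Real.log J - Real.log 2 + Real.log r)) :=
    intervalIntegral.integral_mono_on h.lt.le
      ((cC.intervalIntegrable l₁ l₂).sub i1) ((cE.intervalIntegrable l₁ l₂).sub i2)
      (fun L _ => pw L)
  rw [intervalIntegral.integral_sub (cC.intervalIntegrable _ _) i1,
    intervalIntegral.integral_const_mul,
    intervalIntegral.integral_sub (cE.intervalIntegrable _ _) i2,
    intervalIntegral.integral_mul_const] at hint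
  have hrr : ∫ L in l₁..l₂, cc F ω l₁ l₂ α L = r := rfl
  rw [hrr] at hint
  have hg := mul_le_mul_of_nonneg_left (integral_g h.lt.le n) hr.le
  linarith

/-- **Gibbs' principle in the angle and the depth** -/
theorem gibbs_band {F : ℝ → ℝ → ℝ} {ω : ℝ → ℝ} {l₁ l₂ : ℝ} (h : Band F ω l₁ l₂) (n : ℝ) :
    Real.log (JJ F ω l₁ l₂) ≤ Real.log 2 -
      (2 * π)⁻¹ * (∫ α in (0:ℝ)..(2 * π), rr F ω l₁ l₂ α * Real.log (rr F ω l₁ l₂ α)) +
      (2 * π)⁻¹ * ∫ α in (0:ℝ)..(2 * π), ∫ L in l₁..l₂, en F ω n l₁ l₂ α L := by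
  have c1 := rr_cont h
  have c2 : Continuous fun α => rr F ω l₁ l₂ α * Real.log (rr F ω l₁ l₂ α) :=
    Real.continuous_mul_log.comp c1
  have c3 := cont_int (en_cont h n) l₁ l₂
  have i1 : IntervalIntegrable (fun α => rr F ω l₁ l₂ α *
      (Real.log (JJ F ω l₁ l₂) - Real.log 2)) volume 0 (2 * π) :=
    (c1.mul continuous_const).intervalIntegrable _ _
  have hm : ∫ α in (0:ℝ)..(2 * π), (rr F ω l₁ l₂ α * (Real.log (JJ F ω l₁ l₂) - Real.log 2) +
      rr F ω l₁ l₂ α * Real.log (rr F ω l₁ l₂ α)) ≤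
      ∫ α in (0:ℝ)..(2 * π), ∫ L in l₁..l₂, en F ω n l₁ l₂ α L :=
    intervalIntegral.integral_mono_on (by positivity : (0:ℝ) ≤ 2 * π)
      (i1.add (c2.intervalIntegrable 0 (2 * π)))
      (c3.intervalIntegrable 0 (2 * π)) (fun α _ => gibbs_alpha h n α)
  rw [intervalIntegral.integral_add i1 (c2.intervalIntegrable _ _),
    intervalIntegral.integral_mul_const, rr_one h] at hm
  have hp : (0:ℝ) < (2 * π)⁻¹ := by positivity
  have := mul_le_mul_of_nonneg_left hm hp.le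
  have e : (2 * π)⁻¹ * (2 * π * (Real.log (JJ F ω l₁ l₂) - Real.log 2) +
      ∫ α in (0:ℝ)..(2 * π), rr F ω l₁ l₂ α * Real.log (rr F ω l₁ l₂ α)) =
      Real.log (JJ F ω l₁ l₂) - Real.log 2 +
      (2 * π)⁻¹ * ∫ α in (0:ℝ)..(2 * π), rr F ω l₁ l₂ α * Real.log (rr F ω l₁ l₂ α) := by
    rw [mul_add, ← mul_assoc, inv_mul_cancel₀ (by positivity), one_mul]
  rw [e] at this
  linarith

end Pool.Agent.Helper35.CK
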