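import Pool.Agent.Helper35.CK.Gibbs
set_option autoImplicit false
open MeasureTheory Set
open scoped Real

/-! Project CK: Gibbs' principle, level by level. -/

namespace Pool.Agent.Helper35.CK

/-- continuous functions on rectangles: the order of the integrals -/
theorem swap_int {f : ℝ → ℝ → ℝ} (hf : Continuous (fun p : ℝ × ℝ => f p.1 p.2)) (a b c d : ℝ) :
    ∫ α in a..b, ∫ L in c..d, f α L = ∫ L in c..d, ∫ α in a..b, f α L := by
  apply intervalIntegral_intervalIntegral_swap
  have hK : IsCompact (uIcc a b ×ˢ uIcc c d) := isCompact_uIcc.prod isCompact_uIcc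
  have h1 : IntegrableOn (Function.uncurry f) (uIcc a b ×ˢ uIcc c d) :=
    hf.continuousOn.integrableOn_compact hK
  have h2 : uIoc a b ×ˢ uIoc c d ⊆ uIcc a b ×ˢ uIcc c d :=
    prod_mono uIoc_subset_uIcc uIoc_subset_uIcc
  have h3 := h1.mono_set h2
  exact h3

theorem cont_int' {f : ℝ → ℝ → ℝ} (hf : Continuous (fun p : ℝ × ℝ => f p.1 p.2)) (a b : ℝ) :
    Continuous (fun L => ∫ α in a..b, f α L) :=
  intervalIntegral.continuous_parametric_intervalIntegral_of_continuous'
    (f := fun L α => f α L) (hf.comp (by fun_prop : Continuous fun p : ℝ × ℝ => (p.2, p.1))) a b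

/-- the mean over one level -/
noncomputable def ZZ (F : ℝ → ℝ → ℝ) (L : ℝ) : ℝ :=
  (2 * π)⁻¹ * ∫ α in (0:ℝ)..(2 * π), Real.exp (F α L)

theorem sec_cont {F : ℝ → ℝ → ℝ} (h : Continuous (fun p : ℝ × ℝ => F p.1 p.2)) (L : ℝ) :
    Continuous (fun α => F α L) :=
  h.comp (by fun_prop : Continuous fun α : ℝ => (α, L))

theorem ZZ_pos {F : ℝ → ℝ → ℝ} (h : Continuous (fun p : ℝ × ℝ => F p.1 p.2)) (L : ℝ) :
    0 < ZZ F L := by
  unfold ZZ
  apply mul_pos (by positivity)
  exact intervalIntegral.intervalIntegral_pos_of_pos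
    ((Real.continuous_exp.comp (sec_cont h L)).intervalIntegrable _ _)
    (fun α => Real.exp_pos _) (by positivity)

theorem ZZ_cont {F : ℝ → ℝ → ℝ} (h : Continuous (fun p : ℝ × ℝ => F p.1 p.2)) :
    Continuous (ZZ F) :=
  continuous_const.mul (cont_int' (f := fun α L => Real.exp (F α L))
    (Real.continuous_exp.comp h) 0 (2 * π))

theorem JJ_eq {F : ℝ → ℝ → ℝ} {ω : ℝ → ℝ} {l₁ l₂ : ℝ} (h : Band F ω l₁ l₂) :
    JJ F ω l₁ l₂ = ∫ L in l₁..l₂, ZZ F L * ω L := by
  unfold JJ ZZ
  rw [swap_int (f := fun α L => Real.exp (F α L) * ω L) (exp_mul_cont h),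
    ← intervalIntegral.integral_const_mul]
  apply intervalIntegral.integral_congr
  intro L _
  simp only
  rw [intervalIntegral.integral_mul_const]
  ring

/-- the Gibbs density of one level -/
noncomputable def rL (F : ℝ → ℝ → ℝ) (L α : ℝ) : ℝ := Real.exp (F α L) / ZZ F L

/-- the integrand of the energy -/
noncomputable def eK (F : ℝ → ℝ → ℝ) (ω : ℝ → ℝ) (K : ℝ → ℝ → ℝ) (P : ℝ → ℝ) (l₁ l₂ : ℝ)
    (α L : ℝ) : ℝ :=
  cc F ω l₁ l₂ α L * (F α L + K α L + Real.log (ω L) + P L)

theorem eK_cont {F : ℝ → ℝ → ℝ} {ω : ℝ → ℝ} {l₁ l₂ : ℝ} (h : Band F ω l₁ l₂)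
    {K : ℝ → ℝ → ℝ} (hK : Continuous (fun p : ℝ × ℝ => K p.1 p.2)) {P : ℝ → ℝ}
    (hP : Continuous P) :
    Continuous (fun p : ℝ × ℝ => eK F ω K P l₁ l₂ p.1 p.2) := by
  have e : (fun p : ℝ × ℝ => eK F ω K P l₁ l₂ p.1 p.2) = fun p : ℝ × ℝ =>
      cc F ω l₁ l₂ p.1 p.2 * (F p.1 p.2 + K p.1 p.2 + P p.2) +
      Real.exp (F p.1 p.2) * (ω p.2 * Real.log (ω p.2)) / JJ F ω l₁ l₂ := by
    funext p
    unfold eK cc
    ring
  rw [e]
  have h1 := cc_cont h
  have h2 := h.cont
  have h3 : Continuous fun p : ℝ × ℝ => ω p.2 * Real.log (ω p.2) :=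
    Real.continuous_mul_log.comp (h.contw.comp continuous_snd)
  have h4 : Continuous fun p : ℝ × ℝ => P p.2 := hP.comp continuous_snd
  fun_prop

/-- **Gibbs' principle, level by level.** -/
theorem gibbs_levels {F : ℝ → ℝ → ℝ} {ω : ℝ → ℝ} {l₁ l₂ : ℝ} (h : Band F ω l₁ l₂)
    {K : ℝ → ℝ → ℝ} (hK : Continuous (fun p : ℝ × ℝ => K p.1 p.2)) {P : ℝ → ℝ}
    (hP : Continuous P) (hP1 : ∫ L in l₁..l₂, Real.exp (-P L) ≤ 1) {C : ℝ}
    (hb : ∀ L ∈ Icc l₁ l₂, 0 < ω L → Real.log (ZZ F L) ≤
      C + (2 * π)⁻¹ * ∫ α in (0:ℝ)..(2 * π), rL F L α * (F α L + K α L)) :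
    Real.log (JJ F ω l₁ l₂) ≤ C +
      (2 * π)⁻¹ * ∫ α in (0:ℝ)..(2 * π), ∫ L in l₁..l₂, eK F ω K P l₁ l₂ α L := by
  have hJ := JJ_pos h
  have hJe := JJ_eq h
  set J := JJ F ω l₁ l₂ with hJd
  have cZ := ZZ_cont h.cont
  have cp : Continuous fun L => ZZ F L * ω L / J := (cZ.mul h.contw).div_const _
  have hone : ∫ L in l₁..l₂, ZZ F L * ω L / J = 1 := by
    rw [intervalIntegral.integral_div, ← hJe, div_self hJ.ne']
  have cE := eK_cont h hK hP
  have cE' : Continuous fun L => (2 * π)⁻¹ * ∫ α in (0:ℝ)..(2 * π), eK F ω K P l₁ l₂ α L :=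
    continuous_const.mul (cont_int' cE 0 (2 * π))
  have cPe : Continuous fun L => Real.exp (-P L) := by fun_prop
  -- pointwise in the level
  have pw : ∀ L ∈ Icc l₁ l₂, ZZ F L * ω L / J * Real.log J + (ZZ F L * ω L / J -
      Real.exp (-P L)) ≤ C * (ZZ F L * ω L / J) +
      (2 * π)⁻¹ * ∫ α in (0:ℝ)..(2 * π), eK F ω K P l₁ l₂ α L := by
    intro L hL
    have hZ := ZZ_pos h.cont L
    rcases eq_or_lt_of_le (h.nonneg L) with h0 | h0
    · have e0 : ∀ α, eK F ω K P l₁ l₂ α L = 0 := by
        intro α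
        unfold eK cc
        rw [← h0]
        simp
      simp only [e0, ← h0, mul_zero, zero_div, zero_mul, zero_sub, zero_add,
        intervalIntegral.integral_zero]
      have := Real.exp_pos (-P L)
      linarith
    · have hp : 0 < ZZ F L * ω L / J := div_pos (mul_pos hZ h0) hJ
      set p := ZZ F L * ω L / J with hpd
      have hlp : Real.log p = Real.log (ZZ F L) + Real.log (ω L) - Real.log J := by
        rw [hpd, Real.log_div (mul_pos hZ h0).ne' hJ.ne', Real.log_mul hZ.ne' h0.ne']
      have h1 : 1 - (p / Real.exp (-P L))⁻¹ ≤ Real.log (p / Real.exp (-P L)) :=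
        Real.one_sub_inv_le_log_of_pos (div_pos hp (Real.exp_pos _))
      rw [Real.log_div hp.ne' (Real.exp_pos _).ne', Real.log_exp] at h1
      have h2 := mul_le_mul_of_nonneg_left h1 hp.le
      have h3 : p * (1 - (p / Real.exp (-P L))⁻¹) = p - Real.exp (-P L) := by
        field_simp
      rw [h3, hlp] at h2
      have h4 := mul_le_mul_of_nonneg_left (hb L hL h0) hp.le
      have sF : Continuous fun α => rL F L α * (F α L + K α L) := by
        have a1 := sec_cont h.cont L
        have a2 := sec_cont hK L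
        unfold rL
        fun_prop
      have srL : ∫ α in (0:ℝ)..(2 * π), rL F L α = 2 * π := by
        unfold rL
        rw [intervalIntegral.integral_div]
        have : ∫ α in (0:ℝ)..(2 * π), Real.exp (F α L) = 2 * π * ZZ F L := by
          unfold ZZ
          rw [← mul_assoc, mul_inv_cancel₀ (by positivity), one_mul]
        rw [this]
        field_simp
      have crL : Continuous fun α => rL F L α := by
        have a1 := sec_cont h.cont L
        unfold rL
        fun_prop
      have h5 : (2 * π)⁻¹ * ∫ α in (0:ℝ)..(2 * π), eK F ω K P l₁ l₂ α L =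
          p * ((2 * π)⁻¹ * ∫ α in (0:ℝ)..(2 * π), rL F L α * (F α L + K α L)) +
          p * (Real.log (ω L) + P L) := by
        have e1 : ∀ α, eK F ω K P l₁ l₂ α L = p * (rL F L α * (F α L + K α L)) +
            p * (Real.log (ω L) + P L) * rL F L α := by
          intro α
          unfold eK cc rL
          rw [← hJd, hpd]
          field_simp
          ring
        have j1 : IntervalIntegrable (fun α => p * (rL F L α * (F α L + K α L))) volume
            0 (2 * π) := (continuous_const.mul sF).intervalIntegrable _ _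
        have j2 : IntervalIntegrable (fun α => p * (Real.log (ω L) + P L) * rL F L α) volume
            0 (2 * π) := (continuous_const.mul crL).intervalIntegrable _ _
        simp only [e1]
        rw [intervalIntegral.integral_add j1 j2,
          intervalIntegral.integral_const_mul, intervalIntegral.integral_const_mul, srL]
        field_simp
      rw [h5]
      linarith
  have i1 : IntervalIntegrable (fun L => ZZ F L * ω L / J * Real.log J) volume l₁ l₂ :=
    (cp.mul continuous_const).intervalIntegrable _ _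
  have i2 : IntervalIntegrable (fun L => ZZ F L * ω L / J - Real.exp (-P L)) volume l₁ l₂ :=
    (cp.sub cPe).intervalIntegrable _ _
  have i3 : IntervalIntegrable (fun L => C * (ZZ F L * ω L / J)) volume l₁ l₂ :=
    (continuous_const.mul cp).intervalIntegrable _ _
  have hm := intervalIntegral.integral_mono_on h.lt.le (i1.add i2)
    (i3.add (cE'.intervalIntegrable _ _)) pw
  rw [intervalIntegral.integral_add i1 i2, intervalIntegral.integral_mul_const, hone,
    intervalIntegral.integral_sub (cp.intervalIntegrable _ _) (cPe.intervalIntegrable _ _), hone,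
    intervalIntegral.integral_add i3 (cE'.intervalIntegrable _ _),
    intervalIntegral.integral_const_mul, hone, intervalIntegral.integral_const_mul,
    ← swap_int cE] at hm
  linarith

end Pool.Agent.Helper35.CK
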